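import Pool.Agent.R280.SickStone

/-!
The Stone space of the algebra of clopen subsets of a sick compact space is sick.
-/

set_option autoImplicit false

open Pool.Agent.R280.Sick

universe u v

namespace Pool.Agent.Results.MP_013c33_an.StoneSpaceSick

/-- If `K` is a sick compact Hausdorff space, then the Stone space of the Boolean algebra of clopen
subsets of `K` (a compact Hausdorff totally separated space) is sick. -/
theorem result (K : Type u) [TopologicalSpace K] [CompactSpace K] [T2Space K]
    (h : IsSickUnit.{u, v} K) :
    CompactSpace (ClopUlt K) ∧ T2Space (ClopUlt K) ∧ TotallySeparatedSpace (ClopUlt K) ∧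
      IsSickUnit.{u, v} (ClopUlt K) :=
  ⟨inferInstance, inferInstance, inferInstance, sick_stone K h⟩

end Pool.Agent.Results.MP_013c33_an.StoneSpaceSick
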